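import Pool.Agent.W37.SG.Stm

/-!
# SG-BND (MP_9a3597_al)
-/

set_option autoImplicit false

namespace Pool.Agent.W494.SG

open Pool.Agent.W37.SG

section basics

variable {p : ℕ}

lemma U_mono {m n : ℕ} (h : m ≤ n) : U p m ≤ U p n := by
  apply Submodule.span_mono
  rintro f ⟨i, hi, rfl⟩
  exact ⟨i, by omega, rfl⟩

lemma U_zero : U p 0 = ⊥ := by
  unfold U
  rw [Submodule.span_eq_bot]
  rintro f ⟨i, hi, -⟩
  omega

lemma mon_mem {i n : ℕ} (h : i < n) : mon p i ∈ U p n := Submodule.subset_span ⟨i, h, rfl⟩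

lemma U_succ {i : ℕ} {f : Fn p} (h : f ∈ U p (i + 1)) : ∃ α : ZMod p, f - α • mon p i ∈ U p i := by
  have hs : {f : Fn p | ∃ l < i + 1, f = mon p l} =
      insert (mon p i) {f : Fn p | ∃ l < i, f = mon p l} := by
    ext f
    constructor
    · rintro ⟨l, hl, rfl⟩
      rcases Nat.lt_succ_iff_lt_or_eq.1 hl with h1 | rfl
      · exact Or.inr ⟨l, h1, rfl⟩
      · exact Or.inl rfl
    · rintro (rfl | ⟨l, hl, rfl⟩)
      · exact ⟨i, by omega, rfl⟩
      · exact ⟨l, by omega, rfl⟩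
  unfold U at h
  rw [hs, Submodule.mem_span_insert] at h
  obtain ⟨α, z, hz, rfl⟩ := h
  refine ⟨α, ?_⟩
  rw [add_sub_cancel_left]
  exact hz

lemma const_eq (c : ZMod p) : (fun _ => c : Fn p) = c • mon p 0 := by
  funext x
  simp [mon]

lemma const_mem (c : ZMod p) {n : ℕ} (h : 1 ≤ n) : (fun _ => c : Fn p) ∈ U p n := by
  rw [const_eq]
  exact Submodule.smul_mem _ _ (mon_mem (by omega))

lemma const_not {c : ZMod p} (hc : c ≠ 0) : (fun _ => c : Fn p) ∉ U p 0 := by
  rw [U_zero, Submodule.mem_bot]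
  intro h
  exact hc (congrFun h 0)

lemma dep_mono {d e : ℕ} {g : Pm p} (h : Dep p d g) (he : e ≤ d) : Dep p e g :=
  fun n f hf => U_mono (by omega) (h n f hf)

lemma lead_exists {d : ℕ} {g : Pm p} (h : Dep p d g) : ∃ b : ℕ → ZMod p, Lead p d g b := by
  have : ∀ i, ∃ b : ZMod p, d ≤ i →
      (fun x => mon p i (g x) - mon p i x - b * mon p (i - d) x) ∈ U p (i - d) := by
    intro i
    by_cases hi : d ≤ i
    · have h1 := h (i + 1) (mon p i) (mon_mem (by omega))
      rw [show i + 1 - d = (i - d) + 1 by omega] at h1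
      obtain ⟨b, hb⟩ := U_succ h1
      exact ⟨b, fun _ => hb⟩
    · exact ⟨0, fun h => absurd h hi⟩
  choose b hb using this
  exact ⟨b, fun i hi => hb i hi⟩

lemma stable {g : Pm p} (h : Dep p 1 g) {r : ℕ} {f : Fn p} (hf : f ∈ U p r) :
    (fun x => f (g x)) ∈ U p r := by
  have h1 := U_mono (p := p) (show r - 1 ≤ r by omega) (h r f hf)
  have h2 : (fun x => f (g x)) = (fun x => f (g x) - f x) + f := by
    funext x; simp
  rw [h2]
  exact Submodule.add_mem _ h1 hf

variable [Fact p.Prime]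

lemma lead_index (hD1 : S_D1) {d i : ℕ} {g : Pm p} {b : ℕ → ZMod p} (hd : Dep p d g)
    (hl : Lead p d g b) (hi : d ≤ i) (hb : b i ≠ 0) {f : Fn p} (hf : f ∈ U p (i + 1))
    (hf' : f ∉ U p i) : (fun x => f (g x) - f x) ∉ U p (i - d) := by
  intro hcon
  obtain ⟨α, hα⟩ := U_succ hf
  have hα0 : α ≠ 0 := by
    rintro rfl
    apply hf'
    simpa using hα
  have h1 := hd i _ hα
  have h2 := hl i hi
  have h3 : (α * b i) • mon p (i - d) ∈ U p (i - d) := by
    have h4 : (α * b i) • mon p (i - d) = (fun x => f (g x) - f x) -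
        (fun x => (f - α • mon p i) (g x) - (f - α • mon p i) x) -
        α • (fun x => mon p i (g x) - mon p i x - b i * mon p (i - d) x) := by
      funext x
      simp only [Pi.sub_apply, Pi.smul_apply, smul_eq_mul]
      ring
    rw [h4]
    exact Submodule.sub_mem _ (Submodule.sub_mem _ hcon h1) (Submodule.smul_mem _ _ h2)
  have h5 : α * b i ≠ 0 := mul_ne_zero hα0 hb
  have h6 := Submodule.smul_mem _ (α * b i)⁻¹ h3
  rw [smul_smul, inv_mul_cancel₀ h5, one_smul] at h6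
  exact hD1 p _ h6

lemma tri_agree {g : Pm p} (hg : IsTri p g) {k : ℕ} {x y : ℕ → ZMod p}
    (h : ∀ i < k, x i = y i) : ∀ i < k, g x i = g y i := by
  intro i hi
  have h1 := hg i x y (fun l hl => h l (by omega))
  have h2 := h i hi
  rw [h2] at h1
  exact sub_left_inj.1 h1

lemma conj_ker (hD4 : S_D4) {u h : Pm p} (hh : IsTri p h) {k : ℕ} (hu : IsKer p k u)
    (x : ℕ → ZMod p) :
    (∀ i < k, (h⁻¹ * u * h) x i = x i) ∧
      (h⁻¹ * u * h) x k - x k = u (h x) k - h x k := by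
  have hi := (hD4 p h h hh hh).2.1
  have h0 : (h⁻¹ * u * h) x = h⁻¹ (u (h x)) := rfl
  have h1 : h⁻¹ (h x) = x := by simp
  have h2 := tri_agree hi (hu (h x))
  refine ⟨fun i hik => ?_, ?_⟩
  · rw [h0, h2 i hik, h1]
  · have h3 := hi k (u (h x)) (h x) (hu (h x))
    rw [h1] at h3
    rw [h0]
    linear_combination h3

/-- the label of `cm Y g` at coordinate `k` -/
def Dl (Y : Pm p) (k : ℕ) (g : Pm p) : Fn p := fun x => (cm Y g) x k - x k

lemma cm_ker (hD4 : S_D4) {Y g : Pm p} (hg : IsTri p g) {j : ℕ} {c : ZMod p} (hY : IsKer p j Y)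
    (hYc : ∀ x, Y x j = x j + c) : IsKer p (j + 1) (cm Y g) := by
  intro x i hi
  have h0 : cm Y g = Y⁻¹ * (g⁻¹ * Y * g) := by unfold cm; group
  obtain ⟨h1, h2⟩ := conj_ker hD4 hg hY x
  rw [h0]
  have h3 : Y ((Y⁻¹ * (g⁻¹ * Y * g)) x) = (g⁻¹ * Y * g) x := by
    rw [Equiv.Perm.mul_apply]; simp
  set v := (Y⁻¹ * (g⁻¹ * Y * g)) x with hv
  rcases Nat.lt_succ_iff_lt_or_eq.1 hi with hij | rfl
  · have h4 := hY v i hij
    rw [← h4, h3, h1 i hij]
  · have h4 := hYc v
    rw [h3] at h4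
    rw [hYc (g x)] at h2
    linear_combination h2 - h4

lemma cocycle (hD4 : S_D4) {Y g h : Pm p} (hYt : IsTri p Y) (hg : IsTri p g) (hh : IsTri p h)
    {j : ℕ} {c : ZMod p} (hY : IsKer p j Y) (hYc : ∀ x, Y x j = x j + c) :
    Dl Y (j + 1) (g * h) = Dl Y (j + 1) h + fun x => Dl Y (j + 1) g (h x) := by
  funext x
  have h0 : cm Y (g * h) = cm Y h * (h⁻¹ * cm Y g * h) := by unfold cm; group
  obtain ⟨h1, h2⟩ := conj_ker hD4 hh (cm_ker hD4 hg hY hYc) x
  have ht : IsTri p (cm Y h) := by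
    unfold cm
    have hYi := (hD4 p Y Y hYt hYt).2.1
    have hhi := (hD4 p h h hh hh).2.1
    exact (hD4 p _ _ (hD4 p _ _ (hD4 p _ _ hYi hhi).1 hYt).1 hh).1
  have h3 := ht (j + 1) ((h⁻¹ * cm Y g * h) x) x h1
  have h4 : cm Y (g * h) x = cm Y h ((h⁻¹ * cm Y g * h) x) := by rw [h0]; rfl
  simp only [Dl, Pi.add_apply]
  rw [h4]
  linear_combination h2 + h3

lemma mon_pow (k : ℕ) (x : ℕ → ZMod p) : mon p (p ^ k) x = x k := by
  have hp : p.Prime := Fact.out
  unfold mon
  rw [Finset.prod_eq_single k]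
  · rw [Nat.div_self (pow_pos hp.pos k), Nat.mod_eq_of_lt hp.one_lt, pow_one]
  · intro i _ hik
    have : p ^ k / p ^ i % p = 0 := by
      rcases lt_or_gt_of_ne hik with h | h
      · rw [Nat.pow_div h.le hp.pos]
        obtain ⟨t, ht⟩ : ∃ t, k - i = t + 1 := ⟨k - i - 1, by omega⟩
        rw [ht, pow_succ]
        exact Nat.mul_mod_left _ _
      · rw [Nat.div_eq_of_lt (Nat.pow_lt_pow_right hp.one_lt h)]
        simp
    rw [this, pow_zero]
  · intro h
    exact absurd (Finset.mem_range.2 (Nat.lt_pow_self hp.one_lt)) h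

lemma cf_ne {r : ℕ} (hr : r ≠ 0) {h : Pm p} (ht : tau p (padicValNat p r) h ≠ 0) :
    cf p r h ≠ 0 := by
  unfold cf
  apply mul_ne_zero
  · unfold ed
    rw [ZMod.natCast_mod, Ne, ZMod.natCast_eq_zero_iff]
    intro hd
    apply pow_succ_padicValNat_not_dvd (p := p) hr
    obtain ⟨t, ht⟩ := hd
    have h2 : p ^ padicValNat p r * (r / p ^ padicValNat p r) = r :=
      Nat.mul_div_cancel' pow_padicValNat_dvd
    exact ⟨t, by rw [pow_succ, mul_assoc, ← ht, h2]⟩
  · apply mul_ne_zero _ ht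
    exact pow_ne_zero _ (by norm_num)

end basics

theorem main : S_BND := by
  intro hD1 hD2 hD3 hD4 hDC hXP p _ s Q X Γ j0 n a hp2 hQ hτ hX hG j hj0 hjs
  classical
  have hp : p.Prime := Fact.out
  by_contra hcon
  rw [not_le] at hcon
  obtain ⟨q, hq⟩ : ∃ q, q = p ^ s := ⟨_, rfl⟩
  rw [← hq] at hcon
  obtain ⟨A, hA⟩ : ∃ A, A = a (j + 1) := ⟨_, rfl⟩
  rw [← hA] at hcon
  have hqA : q + 1 ≤ A := by
    have h1 : p ^ s ≤ p ^ (2 * s + q) := Nat.pow_le_pow_right hp.pos (by omega)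
    omega
  -- the element `Y`
  have hXP' := hXP hD1 hD3 hD4 hDC p s Q X hQ hX
  obtain ⟨-, -, hYker, c, hc, hYc⟩ := hXP' (j - s)
  have hsj : s + (j - s) = j := by omega
  rw [hsj] at hYker hYc
  obtain ⟨Y, hY⟩ : ∃ Y, Y = X ^ p ^ (j - s) := ⟨_, rfl⟩
  rw [← hY] at hYker hYc
  have hYQ : Y ∈ Q := by rw [hY]; exact Q.pow_mem hX.mem _
  have hYt := hQ Y hYQ
  have haj : 1 ≤ a j := by
    by_contra h
    have h0 : a j = 0 := by omega
    have h1 := (hG.lab j (fun _ => c)).2 ⟨Y, hYQ, hYker, hYc⟩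
    rw [h0] at h1
    exact const_not hc h1
  have hcmQ : ∀ g ∈ Q, ∀ h ∈ Q, cm g h ∈ Q := fun g hg h hh =>
    Q.mul_mem (Q.mul_mem (Q.mul_mem (Q.inv_mem hg) (Q.inv_mem hh)) hg) hh
  obtain ⟨D, hD⟩ : ∃ D : Pm p → Fn p, D = Dl Y (j + 1) := ⟨_, rfl⟩
  have hDmem : ∀ g ∈ Q, D g ∈ U p A := by
    intro g hg
    rw [hA]
    refine (hG.lab (j + 1) _).2 ⟨cm Y g, hcmQ Y hYQ g hg, cm_ker hD4 (hQ g hg) hYker hYc, ?_⟩
    intro x
    simp [hD, Dl]
  have hco : ∀ g ∈ Q, ∀ h ∈ Q, D (g * h) = D h + fun x => D g (h x) := by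
    intro g hg h hh
    rw [hD]
    exact cocycle hD4 hYt (hQ g hg) (hQ h hh) hYker hYc
  have hDX : D X = 0 := by
    have h1 : cm Y X = 1 := by
      have h2 : Y * X = X * Y := by rw [hY, ← pow_succ, ← pow_succ']
      unfold cm
      rw [mul_assoc, h2]
      group
    funext x
    rw [hD]
    simp [Dl, h1]
  have hD1' : D 1 = 0 := by
    have h1 : cm Y 1 = 1 := by unfold cm; group
    funext x
    rw [hD]
    simp [Dl, h1]
  have hdep1 : ∀ g ∈ Q, Dep p 1 g := fun g hg => (hD2 p g (hQ g hg)).1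
  have hw : ∀ g ∈ Q, ∀ h ∈ Q, D (cm g h) = (fun x => D g (h x) - D g x) -
      (fun x => D g (cm g h x) - D g x) - (fun x => D h ((g * cm g h) x) - D h x) := by
    intro g hg h hh
    have hwQ := hcmQ g hg h hh
    have h1 := hco g hg h hh
    have h2 : g * h = h * (g * cm g h) := by unfold cm; group
    rw [h2, hco h hh _ (Q.mul_mem hg hwQ), hco g hg _ hwQ] at h1
    funext x
    have h3 := congrFun h1 x
    simp only [Pi.add_apply] at h3
    simp only [Pi.sub_apply]
    linear_combination h3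
  -- monotonicity of `n`
  have hnmono : ∀ t, n j0 ≤ n (j0 + t) := by
    intro t
    induction t with
    | zero => exact le_rfl
    | succ t ih =>
      rw [← add_assoc, hG.nstep (j0 + t) (by omega)]
      omega
  have hnj : n j0 ≤ n j := by
    have := hnmono (j - j0)
    rwa [show j0 + (j - j0) = j by omega] at this
  have hn1 := hG.npos
  -- start
  have hYlab : (fun x => Y x j - x j) = (fun _ => c : Fn p) := by
    funext x; rw [hYc x]; ring
  have hYΓ : Y ∈ Γ (n j + (a j - 1)) := by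
    refine (hG.blk j hj0 (a j - 1) (by omega) Y).2 ⟨hYQ, hYker, ?_⟩
    rw [hYlab]
    exact const_mem c (by omega)
  have hYΓ' : Y ∉ Γ (n j + (a j - 1) + 1) := by
    rw [show n j + (a j - 1) + 1 = n j + a j by omega]
    intro h
    have h1 := ((hG.blk j hj0 (a j) le_rfl Y).1 h).2.2
    rw [hYlab, Nat.sub_self] at h1
    exact const_not hc h1
  obtain ⟨g0, hg0, hg0'⟩ := hG.next _ (by omega) Y hYΓ hYΓ'
  have hnj1 := hG.nstep j hj0
  have hg0D : D g0 ∉ U p (A - 1) := by
    intro h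
    apply hg0'
    rw [show n j + (a j - 1) + 2 = n (j + 1) + 1 by omega]
    refine (hG.blk (j + 1) (by omega) 1 (by omega) _).2 ⟨hcmQ Y hYQ g0 hg0,
      cm_ker hD4 (hQ g0 hg0) hYker hYc, ?_⟩
    rw [← hA]
    rw [hD] at h
    exact h
  -- the very good elements
  have hVG : ∀ t, t + q + 1 ≤ A → ∃ g ∈ Q, D g ∈ U p (A - 1 - q - t + 1) ∧
      D g ∉ U p (A - 1 - q - t) ∧ Dep p (A - (A - 1 - q - t) + 1) g := by
    intro t
    induction t with
    | zero =>
      intro _
      have hgd : Dep p (q + 2) (cm g0 X) := by rw [hq]; exact hX.comm g0 hg0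
      obtain ⟨b, hb, hb0⟩ := hX.lead
      rw [← hq] at hb hb0
      have hXd : Dep p q X := by rw [hq]; exact hX.dep
      have h1 := hDmem g0 hg0
      have h2 : (fun x => D g0 (X x) - D g0 x) ∉ U p (A - 1 - q) := by
        refine lead_index hD1 hXd hb (by omega) (hb0 (A - 1) (by omega)) ?_ hg0D
        rw [show A - 1 + 1 = A by omega]
        exact h1
      have h3 : (fun x => D g0 (X x) - D g0 x) ∈ U p (A - q) := hXd A _ h1
      have h4 : (fun x => D g0 (cm g0 X x) - D g0 x) ∈ U p (A - (q + 2)) := hgd A _ h1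
      have h5 := hw g0 hg0 X hX.mem
      rw [hDX] at h5
      have h6 : D (cm g0 X) = (fun x => D g0 (X x) - D g0 x) -
          (fun x => D g0 (cm g0 X x) - D g0 x) := by
        rw [h5]
        funext x
        simp
      refine ⟨cm g0 X, hcmQ g0 hg0 X hX.mem, ?_, ?_, ?_⟩
      · rw [h6, show A - 1 - q - 0 + 1 = A - q by omega]
        exact Submodule.sub_mem _ h3 (U_mono (by omega) h4)
      · rw [h6, Nat.sub_zero]
        intro h7
        apply h2
        have h8 := Submodule.add_mem _ h7 (U_mono (by omega : A - (q + 2) ≤ A - 1 - q) h4)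
        rwa [sub_add_cancel] at h8
      · exact dep_mono hgd (by omega)
    | succ t ih =>
      intro ht
      obtain ⟨g, hg, hg1, hg2, hg3⟩ := ih (by omega)
      obtain ⟨r, hr⟩ : ∃ r, r = A - 1 - q - t := ⟨_, rfl⟩
      rw [← hr] at hg1 hg2 hg3
      obtain ⟨h, hh, hτh⟩ := hτ (padicValNat p r)
      obtain ⟨hhd, hhl⟩ := hD2 p h (hQ h hh)
      have hr1 : 1 ≤ r := by omega
      have hcf : cf p r h ≠ 0 := cf_ne (by omega) hτh
      have e1 : (fun x => D g (h x) - D g x) ∉ U p (r - 1) :=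
        lead_index hD1 hhd hhl hr1 hcf hg1 hg2
      have e1' : (fun x => D g (h x) - D g x) ∈ U p r := hhd (r + 1) _ hg1
      obtain ⟨bg, hbg⟩ := lead_exists hg3
      have hwd : Dep p (A - r + 1 + 1) (cm g h) :=
        (hDC p (A - r + 1) 1 g h bg _ (by omega) le_rfl hg3 hhd hbg hhl).1.1
      have hwd' : Dep p (A - r + 1) (cm g h) := dep_mono hwd (by omega)
      obtain ⟨bw, hbw⟩ := lead_exists hwd'
      have hgw : Dep p (A - r + 1) (g * cm g h) :=
        ((hDC p (A - r + 1) (A - r + 1) g (cm g h) bg bw (by omega) (by omega) hg3 hwd' hbg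
          hbw).2.1 rfl).1
      have e2 : (fun x => D g (cm g h x) - D g x) ∈ U p (r - 1) :=
        U_mono (by omega) (hwd (r + 1) _ hg1)
      have e3 : (fun x => D h ((g * cm g h) x) - D h x) ∈ U p (r - 1) :=
        U_mono (by omega) (hgw A _ (hDmem h hh))
      have hrt : A - 1 - q - (t + 1) = r - 1 := by omega
      refine ⟨cm g h, hcmQ g hg h hh, ?_, ?_, ?_⟩
      · rw [hrt, show r - 1 + 1 = r by omega, hw g hg h hh]
        exact Submodule.sub_mem _ (Submodule.sub_mem _ e1' (U_mono (by omega) e2))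
          (U_mono (by omega) e3)
      · rw [hrt, hw g hg h hh]
        intro h7
        apply e1
        have h8 := Submodule.add_mem _ (Submodule.add_mem _ h7 e3) e2
        rwa [sub_add_cancel, sub_add_cancel] at h8
      · exact dep_mono hwd (by omega)
  have hidx : ∀ r, r + 1 + q ≤ A → ∃ g ∈ Q, D g ∈ U p (r + 1) ∧ D g ∉ U p r := by
    intro r hr
    obtain ⟨g, hg, h1, h2, -⟩ := hVG (A - 1 - q - r) (by omega)
    rw [show A - 1 - q - (A - 1 - q - r) = r by omega] at h1 h2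
    exact ⟨g, hg, h1, h2⟩
  -- the subgroups
  let Qr : ℕ → Subgroup (Pm p) := fun r =>
    { carrier := {g | g ∈ Q ∧ D g ∈ U p r}
      one_mem' := ⟨Q.one_mem, by rw [hD1']; exact Submodule.zero_mem _⟩
      mul_mem' := by
        rintro g h ⟨hg, hg'⟩ ⟨hh, hh'⟩
        refine ⟨Q.mul_mem hg hh, ?_⟩
        rw [hco g hg h hh]
        exact Submodule.add_mem _ hh' (stable (hdep1 h hh) hg')
      inv_mem' := by
        rintro g ⟨hg, hg'⟩
        refine ⟨Q.inv_mem hg, ?_⟩
        have h1 := hco g hg g⁻¹ (Q.inv_mem hg)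
        rw [mul_inv_cancel, hD1'] at h1
        have h2 : D g⁻¹ = -fun x => D g (g⁻¹ x) := eq_neg_of_add_eq_zero_left h1.symm
        rw [h2]
        exact Submodule.neg_mem _ (stable (hdep1 _ (Q.inv_mem hg)) hg') }
  have hQrmem : ∀ r g, g ∈ Qr r ↔ g ∈ Q ∧ D g ∈ U p r := fun r g => Iff.rfl
  have hQrQ : ∀ r, Qr r ≤ Q := fun r g hg => hg.1
  have hQrmono : ∀ r r', r ≤ r' → Qr r ≤ Qr r' := fun r r' h g hg => ⟨hg.1, U_mono h hg.2⟩
  -- powers
  have hpow : ∀ r, ∀ g ∈ Q, D g ∈ U p (r + 1) → ∀ m : ℕ,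
      D (g ^ m) - (m : ZMod p) • D g ∈ U p r := by
    intro r g hg hg1 m
    induction m with
    | zero =>
      rw [pow_zero, hD1']
      simp
    | succ m ih =>
      have h1 := hco (g ^ m) (Q.pow_mem hg m) g hg
      rw [← pow_succ] at h1
      have h2 : D (g ^ m) ∈ U p (r + 1) := by
        have h3 : D (g ^ m) = (D (g ^ m) - (m : ZMod p) • D g) + (m : ZMod p) • D g := by
          rw [sub_add_cancel]
        rw [h3]
        exact Submodule.add_mem _ (U_mono (by omega) ih) (Submodule.smul_mem _ _ hg1)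
      have h4 : (fun x => D (g ^ m) (g x) - D (g ^ m) x) ∈ U p r := hdep1 g hg (r + 1) _ h2
      have h5 : D (g ^ (m + 1)) - ((m + 1 : ℕ) : ZMod p) • D g =
          (fun x => D (g ^ m) (g x) - D (g ^ m) x) + (D (g ^ m) - (m : ZMod p) • D g) := by
        rw [h1]
        funext x
        simp only [Pi.add_apply, Pi.sub_apply, Pi.smul_apply, smul_eq_mul]
        push_cast
        ring
      rw [h5]
      exact Submodule.add_mem _ h4 ih
  -- the subgroup `R`
  have hRle : Γ (A + 1) ≤ Qr 0 := by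
    intro g hg
    have hgQ := hG.le _ hg
    refine ⟨hgQ, ?_⟩
    have h1 := hG.comm (n j + (a j - 1)) (A + 1) (by omega) (by omega) Y hYΓ g hg
    have hnj2 := hG.nstep (j + 1) (by omega)
    rw [show n j + (a j - 1) + (A + 1) = n (j + 1 + 1) + 0 by omega] at h1
    have h2 := ((hG.blk (j + 1 + 1) (by omega) 0 (by omega) _).1 h1).2.1
    have h3 : D g = 0 := by
      funext x
      rw [hD]
      simp only [Dl]
      rw [h2 x (j + 1) (by omega), sub_self]
      rfl
    rw [h3]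
    exact Submodule.zero_mem _
  obtain ⟨hR0, hR1⟩ := hG.index (A + 1) (by omega)
  have hmul1 := Subgroup.relIndex_mul_relIndex (Γ (A + 1)) (Qr 0) Q hRle (hQrQ 0)
  have hne1 : (Qr 0).relIndex Q ≠ 0 := by
    intro h; rw [h, mul_zero] at hmul1; exact hR0 hmul1.symm
  have hne2 : ∀ r, (Qr 0).relIndex (Qr r) ≠ 0 := by
    intro r h
    have h1 := Subgroup.relIndex_mul_relIndex (Qr 0) (Qr r) Q (hQrmono 0 r (by omega)) (hQrQ r)
    rw [h, zero_mul] at h1
    exact hne1 h1.symm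
  have hchain : ∀ r, r + q ≤ A → p ^ r ≤ (Qr 0).relIndex (Qr r) := by
    intro r
    induction r with
    | zero =>
      intro _
      rw [pow_zero]
      exact Nat.one_le_iff_ne_zero.2 (hne2 0)
    | succ r ih =>
      intro hr
      have h1 := Subgroup.relIndex_mul_relIndex (Qr 0) (Qr r) (Qr (r + 1))
        (hQrmono 0 r (by omega)) (hQrmono r (r + 1) (by omega))
      have h2 : (Qr r).relIndex (Qr (r + 1)) ≠ 0 := by
        intro h
        rw [h, mul_zero] at h1
        exact hne2 (r + 1) h1.symm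
      obtain ⟨g, hg, hg1, hg2⟩ := hidx r (by omega)
      obtain ⟨m, hm0, hm1, hm2⟩ := Subgroup.exists_pow_mem_of_relIndex_ne_zero h2
        (a := g) ⟨hg, hg1⟩
      have h3 := hpow r g hg hg1 m
      have h4 : D (g ^ m) ∈ U p r := hm2.1.2
      have h5 : (m : ZMod p) • D g ∈ U p r := by
        have := Submodule.sub_mem _ h4 h3
        rwa [sub_sub_cancel] at this
      have h6 : (m : ZMod p) = 0 := by
        by_contra hne
        have h7 := Submodule.smul_mem _ (m : ZMod p)⁻¹ h5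
        rw [smul_smul, inv_mul_cancel₀ hne, one_smul] at h7
        exact hg2 h7
      have h8 : p ≤ m := Nat.le_of_dvd hm0 ((ZMod.natCast_eq_zero_iff m p).1 h6)
      rw [← h1, pow_succ]
      exact Nat.mul_le_mul (ih (by omega)) (h8.trans hm1)
  have hZ : (Γ (A + 1)).relIndex (Qr 0) ≤ p ^ (s + q) := by
    have h1 : p ^ (A - q) ≤ (Qr 0).relIndex Q := by
      have h2 := Subgroup.relIndex_mul_relIndex (Qr 0) (Qr (A - q)) Q
        (hQrmono 0 _ (by omega)) (hQrQ _)
      rw [← h2]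
      have h3 : 1 ≤ (Qr (A - q)).relIndex Q := by
        rw [Nat.one_le_iff_ne_zero]
        intro h
        rw [h, mul_zero] at h2
        exact hne1 h2.symm
      calc p ^ (A - q) ≤ (Qr 0).relIndex (Qr (A - q)) := hchain (A - q) (by omega)
        _ = (Qr 0).relIndex (Qr (A - q)) * 1 := (mul_one _).symm
        _ ≤ _ := Nat.mul_le_mul_left _ h3
    have h2 : (Γ (A + 1)).relIndex (Qr 0) * p ^ (A - q) ≤ p ^ (s + q) * p ^ (A - q) := by
      calc (Γ (A + 1)).relIndex (Qr 0) * p ^ (A - q) ≤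
            (Γ (A + 1)).relIndex (Qr 0) * (Qr 0).relIndex Q := Nat.mul_le_mul_left _ h1
        _ = (Γ (A + 1)).relIndex Q := hmul1
        _ ≤ p ^ (A + 1 - 1 + s) := hR1
        _ = p ^ (s + q) * p ^ (A - q) := by
            rw [← pow_add]
            congr 1
            omega
    exact Nat.le_of_mul_le_mul_right h2 (pow_pos hp.pos _)
  have hZ0 : (Γ (A + 1)).relIndex (Qr 0) ≠ 0 := by
    intro h
    rw [h, zero_mul] at hmul1
    exact hR0 hmul1.symm
  have hXZ : X ∈ Qr 0 := ⟨hX.mem, by rw [hDX]; exact Submodule.zero_mem _⟩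
  obtain ⟨N, hN0, hN1, hN2⟩ := Subgroup.exists_pow_mem_of_relIndex_ne_zero hZ0 hXZ
  obtain ⟨m, u', hu', hNm⟩ := Nat.exists_eq_pow_mul_and_not_dvd (n := N) (by omega) p hp.ne_one
  have hm : m ≤ s + q := by
    have h1 : p ^ m ≤ N := by
      rw [hNm]
      have : 0 < u' := by
        rcases Nat.eq_zero_or_pos u' with h | h
        · exfalso; apply hu'; rw [h]; exact dvd_zero _
        · exact h
      exact Nat.le_mul_of_pos_right _ this
    have h2 : p ^ m ≤ p ^ (s + q) := h1.trans (hN1.trans hZ)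
    exact (Nat.pow_le_pow_iff_right hp.one_lt).1 h2
  obtain ⟨-, -, -, c', hc', hXc⟩ := hXP' m
  have hXN : ∀ v : ℕ, ∀ x, ((X ^ p ^ m) ^ v) x (s + m) = x (s + m) + (v : ZMod p) * c' := by
    intro v
    induction v with
    | zero => intro x; simp
    | succ v ih =>
      intro x
      rw [pow_succ, Equiv.Perm.mul_apply, ih, hXc]
      push_cast
      ring
  have hdN : Dep p (A + 1) (X ^ N) := hG.dep (A + 1) (by omega) _ hN2.1
  have hfin := hdN (p ^ (s + m) + 1) (mon p (p ^ (s + m))) (mon_mem (by omega))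
  have hfun : (fun x => mon p (p ^ (s + m)) ((X ^ N) x) - mon p (p ^ (s + m)) x) =
      (fun _ => (u' : ZMod p) * c' : Fn p) := by
    funext x
    rw [mon_pow, mon_pow, hNm, pow_mul, hXN]
    ring
  rw [hfun] at hfin
  have hne : (u' : ZMod p) * c' ≠ 0 := by
    apply mul_ne_zero _ hc'
    rw [Ne, ZMod.natCast_eq_zero_iff]
    exact hu'
  have hlt : A < p ^ (s + m) := by
    by_contra h
    rw [show p ^ (s + m) + 1 - (A + 1) = 0 by omega] at hfin
    exact const_not hne hfin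
  have : p ^ (s + m) ≤ p ^ (2 * s + q) := Nat.pow_le_pow_right hp.pos (by omega)
  omega

end Pool.Agent.W494.SG
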